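import Mathlib

/-! The halting events of a machine, each program exactly once, and the Kraft inequality. -/

namespace Pool.Agent.Lib.MP_f476d2_lc

open Filter Topology Finset Encodable
open Nat.Partrec (Code)
open scoped Classical

theorem kraft (S : Finset (List Bool)) (h : ∀ p ∈ S, ∀ q ∈ S, p <+: q → p = q) :
    ∑ p ∈ S, (1 / 2 : ℝ) ^ p.length ≤ 1 := by
  by_cases h0 : [] ∈ S
  · have h1 : S = {[]} := by
      ext q
      rw [mem_singleton]
      exact ⟨fun hq => (h _ h0 q hq List.nil_prefix).symm, fun hq => hq ▸ h0⟩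
    rw [h1]; simp
  · have h1 : InformationTheory.UniquelyDecodable (S : Set (List Bool)) := by
      intro L1
      induction L1 with
      | nil =>
        intro L2 _ k2 k3
        cases L2 with
        | nil => rfl
        | cons w L =>
          exfalso
          have k4 : w = [] := by
            simp only [List.flatten_nil, List.flatten_cons] at k3
            exact (List.append_eq_nil_iff.1 k3.symm).1
          exact h0 (k4 ▸ k2 w List.mem_cons_self)
      | cons v L1 ih =>
        intro L2 k1 k2 k3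
        cases L2 with
        | nil =>
          exfalso
          have k4 : v = [] := by
            simp only [List.flatten_nil, List.flatten_cons] at k3
            exact (List.append_eq_nil_iff.1 k3).1
          exact h0 (k4 ▸ k1 v List.mem_cons_self)
        | cons w L =>
          simp only [List.flatten_cons] at k3
          have hv : v ∈ S := k1 v List.mem_cons_self
          have hw : w ∈ S := k2 w List.mem_cons_self
          have k4 : v = w := by
            rcases List.prefix_or_prefix_of_prefix (l₃ := v ++ L1.flatten)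
              (List.prefix_append v L1.flatten) (k3 ▸ List.prefix_append w L.flatten) with k5 | k5
            · exact h v hv w hw k5
            · exact (h w hw v hv k5).symm
          subst k4
          rw [ih L (fun x hx => k1 x (List.mem_cons_of_mem _ hx))
            (fun x hx => k2 x (List.mem_cons_of_mem _ hx)) (List.append_cancel_left k3)]
    simpa using InformationTheory.kraft_mcmillan_inequality h1

def dec (n : ℕ) : List Bool := (decode (α := List Bool) n).getD []

theorem dec_encode (x : List Bool) : dec (encode x) = x := by simp [dec]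

theorem p_dec : Primrec dec := Primrec.option_getD.comp Primrec.decode (Primrec.const [])

def ev (c : Code) (u : ℕ) : Option ℕ :=
  if Code.evaln u.unpair.2 c u.unpair.1 = none ∧ encode (dec u.unpair.1) = u.unpair.1 then
    Code.evaln (u.unpair.2 + 1) c u.unpair.1 else none

theorem p_ev (c : Code) : Primrec (ev c) := by
  have h1 : Primrec fun u : ℕ => u.unpair.1 := Primrec.fst.comp Primrec.unpair
  have h2 : Primrec fun u : ℕ => u.unpair.2 := Primrec.snd.comp Primrec.unpair
  have h3 : Primrec fun u : ℕ => Code.evaln u.unpair.2 c u.unpair.1 :=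
    Code.primrec_evaln.comp ((h2.pair (Primrec.const c)).pair h1)
  have h4 : Primrec fun u : ℕ => Code.evaln (u.unpair.2 + 1) c u.unpair.1 :=
    Code.primrec_evaln.comp (((Primrec.succ.comp h2).pair (Primrec.const c)).pair h1)
  exact Primrec.ite ((Primrec.eq.comp h3 (Primrec.const none)).and
    (Primrec.eq.comp (Primrec.encode.comp (p_dec.comp h1)) h1)) h4 (Primrec.const none)

theorem enum (U : List Bool →. List Bool) (hU : Partrec U)
    (hp : ∀ p q : List Bool, (U p).Dom → (U q).Dom → p <+: q → p = q) :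
    ∃ (out : ℕ → List Bool) (z : ℕ → ℕ), Computable out ∧ Computable z ∧
      Summable (fun u => (z u : ℝ) / 2 ^ u) ∧ ∑' u, (z u : ℝ) / 2 ^ u ≤ 1 ∧
      (∀ q x, x ∈ U q → ∃ u, out u = x ∧ (z u : ℝ) / 2 ^ u = (1 / 2) ^ q.length) ∧
      ∀ X : Set (List Bool), (∑' u, if out u ∈ X then (z u : ℝ) / 2 ^ u else 0) =
        ∑' p : List Bool, if ∃ x ∈ X, x ∈ U p then (1 / 2 : ℝ) ^ p.length else 0 := by
  obtain ⟨c, hc⟩ := Code.exists_code.1 hU
  have hev : ∀ p k, k ∈ c.eval (encode p) ↔ ∃ x ∈ U p, encode x = k := fun p k => by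
    rw [hc]; simp
  set out : ℕ → List Bool := fun u => dec ((ev c u).getD 0) with hout
  set pr : ℕ → List Bool := fun u => dec u.unpair.1 with hpr
  set z : ℕ → ℕ := fun u => if ev c u = none then 0 else 2 ^ (u - (pr u).length) with hz
  have f0 : ∀ u, ev c u ≠ none → Code.evaln u.unpair.2 c u.unpair.1 = none ∧
      encode (pr u) = u.unpair.1 ∧ ev c u = Code.evaln (u.unpair.2 + 1) c u.unpair.1 := by
    intro u hu
    unfold ev at hu ⊢
    split_ifs at hu ⊢ with h
    · exact ⟨h.1, h.2, rfl⟩
    · exact absurd rfl hu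
  have f1 : ∀ u, ev c u ≠ none → out u ∈ U (pr u) := by
    intro u hu
    obtain ⟨_, k2, k3⟩ := f0 u hu
    obtain ⟨k, hk⟩ := Option.ne_none_iff_exists'.1 hu
    have k4 : k ∈ c.eval (encode (pr u)) := by
      rw [k2]; exact Code.evaln_sound (k := u.unpair.2 + 1) (by rw [← k3]; exact hk)
    obtain ⟨x, hx, rfl⟩ := (hev _ _).1 k4
    have k5 : out u = x := by simp only [hout, hk, Option.getD_some, dec_encode]
    rw [k5]; exact hx
  have f2 : ∀ u, ev c u ≠ none → (z u : ℝ) / 2 ^ u = (1 / 2) ^ (pr u).length := by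
    intro u hu
    have k1 : (pr u).length ≤ u :=
      (length_le_encode _).trans ((f0 u hu).2.1.le.trans (Nat.unpair_left_le u))
    simp only [hz, if_neg hu]
    obtain ⟨d, hd⟩ := Nat.exists_eq_add_of_le k1
    generalize (pr u).length = l at hd
    subst hd
    rw [Nat.add_sub_cancel_left, one_div, inv_pow, pow_add]
    push_cast
    field_simp
  have f3 : ∀ u, ev c u = none → (z u : ℝ) / 2 ^ u = 0 := by
    intro u hu
    simp only [hz, if_pos hu]; simp
  have f4 : ∀ u v, ev c u ≠ none → ev c v ≠ none → pr u = pr v → u = v := by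
    have key : ∀ u v, ev c u ≠ none → ev c v ≠ none → u.unpair.1 = v.unpair.1 →
        ¬ u.unpair.2 < v.unpair.2 := by
      intro u v hu hv h hlt
      obtain ⟨k, hk⟩ := Option.ne_none_iff_exists'.1 hu
      rw [(f0 u hu).2.2, h] at hk
      have k1 : k ∈ Code.evaln v.unpair.2 c v.unpair.1 := Code.evaln_mono hlt hk
      rw [(f0 v hv).1] at k1
      exact absurd k1 (by simp)
    intro u v hu hv h
    have k1 : u.unpair.1 = v.unpair.1 := by rw [← (f0 u hu).2.1, ← (f0 v hv).2.1, h]
    have k2 := key u v hu hv k1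
    have k3 := key v u hv hu k1.symm
    rw [← Nat.pair_unpair u, ← Nat.pair_unpair v, k1, show u.unpair.2 = v.unpair.2 by omega]
  have f5 : ∀ q x, x ∈ U q → ∃ u, ev c u ≠ none ∧ pr u = q ∧ out u = x := by
    intro q x hx
    have k1 : ∃ s, Code.evaln s c (encode q) ≠ none := by
      obtain ⟨s, hs⟩ := Code.evaln_complete.1 ((hev q _).2 ⟨x, hx, rfl⟩)
      exact ⟨s, fun h => by rw [h] at hs; exact absurd hs (by simp)⟩
    have k2 := Nat.find_spec k1
    have k3 : Nat.find k1 ≠ 0 := fun h => by
      rw [h] at k2; exact k2 (by simp [Code.evaln])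
    obtain ⟨s, hs⟩ := Nat.exists_eq_succ_of_ne_zero k3
    have k4 : Code.evaln s c (encode q) = none := by
      have := Nat.find_min k1 (m := s) (by omega)
      exact not_not.1 this
    rw [hs] at k2
    have k5 : ev c (Nat.pair (encode q) s) ≠ none := by
      unfold ev
      simp only [Nat.unpair_pair, dec_encode]
      rw [if_pos ⟨k4, trivial⟩]
      exact k2
    have k6 : pr (Nat.pair (encode q) s) = q := by simp only [hpr, Nat.unpair_pair, dec_encode]
    refine ⟨_, k5, k6, ?_⟩
    have k7 := f1 _ k5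
    rw [k6] at k7
    exact Part.mem_unique k7 hx
  have f6 : ∀ T : Finset ℕ, ∑ u ∈ T, (z u : ℝ) / 2 ^ u ≤ 1 := by
    intro T
    have k1 : ∑ u ∈ T, (z u : ℝ) / 2 ^ u =
        ∑ u ∈ T.filter (fun u => ev c u ≠ none), (1 / 2 : ℝ) ^ (pr u).length := by
      rw [sum_filter]
      refine sum_congr rfl fun u _ => ?_
      split_ifs with h
      · exact f2 u h
      · exact f3 u (not_not.1 h)
    rw [k1, ← sum_image (f := fun p : List Bool => (1 / 2 : ℝ) ^ p.length)
      (fun u hu v hv h => f4 u v (mem_filter.1 hu).2 (mem_filter.1 hv).2 h)]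
    refine kraft _ fun p hp1 q hq1 => hp p q ?_ ?_
    · obtain ⟨u, hu, rfl⟩ := mem_image.1 hp1
      exact Part.dom_iff_mem.2 ⟨_, f1 u (mem_filter.1 hu).2⟩
    · obtain ⟨u, hu, rfl⟩ := mem_image.1 hq1
      exact Part.dom_iff_mem.2 ⟨_, f1 u (mem_filter.1 hu).2⟩
  have hs : Summable (fun u => (z u : ℝ) / 2 ^ u) :=
    summable_of_sum_le (fun u => by positivity) f6
  refine ⟨out, z, ?_, ?_, hs, hs.tsum_le_of_sum_le f6, fun q x hx => ?_, fun X => ?_⟩
  · exact (p_dec.comp (Primrec.option_getD.comp (p_ev c) (Primrec.const 0))).to_comp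
  · exact (Primrec.ite (Primrec.eq.comp (p_ev c) (Primrec.const none)) (Primrec.const 0)
      ((Primrec₂.unpaired'.1 Nat.Primrec.pow).comp (Primrec.const 2) (Primrec.nat_sub.comp
        Primrec.id (Primrec.list_length.comp
          (p_dec.comp (Primrec.fst.comp Primrec.unpair)))))).to_comp
  · obtain ⟨u, k1, k2, k3⟩ := f5 q x hx
    exact ⟨u, k3, by rw [f2 u k1, k2]⟩
  · have g1 : ∀ u, (if out u ∈ X then (z u : ℝ) / 2 ^ u else 0) ≠ 0 →
        ev c u ≠ none ∧ out u ∈ X := by
      intro u hu
      by_cases k1 : out u ∈ X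
      · rw [if_pos k1] at hu
        exact ⟨fun k2 => hu (f3 u k2), k1⟩
      · exact absurd (if_neg k1) hu
    symm
    refine tsum_eq_tsum_of_ne_zero_bij (fun u => pr u.1) ?_ ?_ ?_
    · intro u v h
      exact Subtype.ext (f4 _ _ (g1 _ u.2).1 (g1 _ v.2).1 h)
    · intro p hp1
      by_cases k1 : ∃ x ∈ X, x ∈ U p
      · obtain ⟨x, hx, k2⟩ := k1
        obtain ⟨u, k3, k4, k5⟩ := f5 p x k2
        refine ⟨⟨u, ?_⟩, k4⟩
        rw [Function.mem_support, if_pos (k5 ▸ hx), f2 u k3]
        positivity
      · exact absurd (if_neg k1) hp1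
    · intro u
      have k1 := g1 _ u.2
      rw [if_pos ⟨_, k1.2, f1 _ k1.1⟩, if_pos k1.2, f2 _ k1.1]

end Pool.Agent.Lib.MP_f476d2_lc
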