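import Pool.Agent.Lib.MP_f476d2_lc.Core
import Pool.Agent.Lib.MP_f476d2_lc.Enum

/-! Coins (strings on which the bound is large) and the auxiliary machine. -/

namespace Pool.Agent.Lib.MP_f476d2_lc

open Filter Topology Finset Encodable Computable

theorem exists_next (h : Str → ℕ) (hu : ∀ N, ∃ x, N ≤ h x) (q : ℕ × ℕ) :
    ∃ k, (q.1 < k ∧ q.2 ≤ h (dec k)) ∧ encode (dec k) = k := by
  obtain ⟨x, hx⟩ := hu (q.2 + 1 + ∑ k ∈ range (q.1 + 1), h (dec k))
  refine ⟨encode x, ⟨?_, ?_⟩, by rw [dec_encode]⟩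
  · by_contra h1
    have h2 := single_le_sum (f := fun k => h (dec k)) (s := range (q.1 + 1))
      (fun _ _ => Nat.zero_le _) (mem_range.2 (show encode x < q.1 + 1 by omega))
    simp only [dec_encode] at h2
    omega
  · rw [dec_encode]; omega

theorem coins (h : Str → ℕ) (hc : Computable h) (hu : ∀ N, ∃ x, N ≤ h x) :
    ∃ (y : ℕ → Str) (lev : Str → ℕ), Computable y ∧ Computable lev ∧ Function.Injective y ∧
      ∀ v, lev (y v) = v.unpair.1 ∧ 4 ^ (v.unpair.1 + 1) + 1 ≤ h (y v) := by
  have cd : Computable dec := p_dec.to_comp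
  have c1 : Computable fun p : (ℕ × ℕ) × ℕ =>
      ((decide (p.1.1 + 1 ≤ p.2) && decide (p.1.2 ≤ h (dec p.2))) &&
        decide (encode (dec p.2) = p.2)) :=
    cand (cand (cle (cadd (fst.comp fst) (const 1)) snd)
      (cle (snd.comp fst) (hc.comp (cd.comp snd))))
      (ceq (Computable.encode.comp (cd.comp snd)) snd)
  have c2 : ComputablePred fun p : (ℕ × ℕ) × ℕ =>
      (p.1.1 < p.2 ∧ p.1.2 ≤ h (dec p.2)) ∧ encode (dec p.2) = p.2 :=
    ⟨inferInstance, c1.of_eq fun p => by
      rw [Bool.eq_iff_iff]; simp⟩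
  have c3 : Computable fun q : ℕ × ℕ => Nat.find (exists_next h hu q) :=
    Computable.find (P := fun (q : ℕ × ℕ) (k : ℕ) =>
      (q.1 < k ∧ q.2 ≤ h (dec k)) ∧ encode (dec k) = k) c2 (exists_next h hu)
  obtain ⟨nx, cn, hn⟩ : ∃ nx : ℕ × ℕ → ℕ, Computable nx ∧ ∀ q : ℕ × ℕ,
      (q.1 < nx q ∧ q.2 ≤ h (dec (nx q))) ∧ encode (dec (nx q)) = nx q :=
    ⟨_, c3, fun q => Nat.find_spec (exists_next h hu q)⟩
  have c4 : Computable fun q : ℕ × ℕ × ℕ => nx (q.2.2, 4 ^ (q.2.1.unpair.1 + 1) + 1) :=
    cn.comp ((snd.comp snd).pair (cadd (cpow 4 (cadd (fst.comp (unpair.comp (fst.comp snd)))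
      (const 1))) (const 1)))
  obtain ⟨c, cc, hs⟩ : ∃ c : ℕ → ℕ, Computable c ∧
      ∀ v, c (v + 1) = nx (c v, 4 ^ (v.unpair.1 + 1) + 1) :=
    ⟨fun n => Nat.rec (motive := fun _ => ℕ) 0
      (fun v ih => nx (ih, 4 ^ (v.unpair.1 + 1) + 1)) n,
      (nat_rec Computable.id (const 0) c4.to₂).of_eq fun _ => rfl, fun _ => rfl⟩
  have sm : StrictMono c := strictMono_nat_of_lt_succ fun v => by
    rw [hs]; exact (hn (c v, 4 ^ (v.unpair.1 + 1) + 1)).1.1
  have he : ∀ v, encode (dec (c (v + 1))) = c (v + 1) := fun v => by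
    rw [hs]; exact (hn _).2
  have ex : ∀ x : Str, ∃ v, encode x ≤ c (v + 1) := fun x =>
    ⟨encode x, (Nat.le_succ _).trans (sm.id_le _)⟩
  have c5 : ComputablePred fun p : Str × ℕ => encode p.1 ≤ c (p.2 + 1) :=
    ⟨inferInstance, cle (Computable.encode.comp fst) (cc.comp (cadd snd (const 1)))⟩
  have c6 : Computable fun x : Str => Nat.find (ex x) :=
    Computable.find (P := fun (x : Str) (v : ℕ) => encode x ≤ c (v + 1)) c5 ex
  refine ⟨fun v => dec (c (v + 1)), fun x => (Nat.find (ex x)).unpair.1,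
    cd.comp (cc.comp (cadd Computable.id (const 1))), fst.comp (unpair.comp c6), ?_,
    fun v => ⟨?_, ?_⟩⟩
  · intro v w hvw
    have h1 : c (v + 1) = c (w + 1) := by
      rw [← he v, ← he w]; exact congrArg encode hvw
    exact Nat.succ_injective (sm.injective h1)
  · have h1 : Nat.find (ex (dec (c (v + 1)))) = v := by
      rw [Nat.find_eq_iff]
      refine ⟨(he v).le, fun w hw => ?_⟩
      rw [he v, not_le]
      exact sm (by omega)
    simp only [h1]
  · have h1 := (hn (c v, 4 ^ (v.unpair.1 + 1) + 1)).1.2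
    rw [← hs] at h1
    exact h1

def mo (y : ℕ → Str) (p : Str) : Option Str :=
  cond (decide (p.length = 4 * p.idxOf false + 1))
    (some (y (Nat.pair (p.idxOf false) (encode p)))) none

theorem c_mo {y : ℕ → Str} (hy : Computable y) : Computable (mo y) := by
  have h1 : Computable fun p : Str => p.idxOf false :=
    ((Primrec.list_idxOf (α := Bool)).comp (Primrec.const false) Primrec.id).to_comp.of_eq
      fun p => by simp only [id]
  exact Computable.cond (ceq list_length (cadd (cmul (const 4) h1) (const 1)))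
    (option_some.comp (hy.comp (cpair h1 Computable.encode))) (const none)

theorem mo_dom {y : ℕ → Str} {p : Str} (h : ((mo y p : Option Str) : Part Str).Dom) :
    p.length = 4 * p.idxOf false + 1 := by
  by_contra h1
  simp [mo, h1] at h

theorem mo_free (y : ℕ → Str) (p q : Str) (hp : ((mo y p : Option Str) : Part Str).Dom)
    (hq : ((mo y q : Option Str) : Part Str).Dom) (h : p <+: q) : p = q := by
  have h1 := mo_dom hp
  have h2 := mo_dom hq
  obtain ⟨t, rfl⟩ := h
  have h3 : false ∈ p := List.idxOf_lt_length_iff.1 (by omega)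
  rw [List.idxOf_append_of_mem h3, List.length_append] at h2
  have h4 : t = [] := List.length_eq_zero_iff.1 (by omega)
  rw [h4, List.append_nil]

def prog (i : ℕ) (w : Fin (3 * i) → Bool) : Str := List.replicate i true ++ false :: List.ofFn w

theorem prog_len (i : ℕ) (w : Fin (3 * i) → Bool) : (prog i w).length = 4 * i + 1 := by
  simp [prog]; omega

theorem idx_rep (i : ℕ) (l : Str) : (List.replicate i true ++ false :: l).idxOf false = i := by
  induction i with
  | zero => simp
  | succ i ih => simp [List.replicate_succ, ih]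

theorem mo_prog (y : ℕ → Str) (i : ℕ) (w : Fin (3 * i) → Bool) :
    mo y (prog i w) = some (y (Nat.pair i (encode (prog i w)))) := by
  have h1 : (prog i w).idxOf false = i := idx_rep i _
  unfold mo
  rw [h1, prog_len]
  simp

theorem prog_inj (i : ℕ) : Function.Injective (prog i) := by
  intro w w' h
  unfold prog at h
  exact List.ofFn_injective (List.cons.inj (List.append_cancel_left h)).2

end Pool.Agent.Lib.MP_f476d2_lc
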