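import Mathlib

/-! The construction (levels rechosen greedily) and its computability. -/

namespace Pool.Agent.Lib.MP_f476d2_lc

abbrev Str := List Bool

structure Dat where
  out : ℕ → Str
  z : ℕ → ℕ
  lev : Str → ℕ
  ok : Str → Bool
  a : ℕ → ℕ
  b : ℕ → ℕ
  e : ℕ
  i0 : ℕ

namespace Dat

def mass (D : Dat) (B : List Str) (t : ℕ) : ℕ :=
  Nat.rec (motive := fun _ => ℕ) 0
    (fun u ih => 2 * (ih + cond (decide (D.out u ∈ B)) (D.z u) 0)) t

def tot (D : Dat) (t : ℕ) : ℕ :=
  Nat.rec (motive := fun _ => ℕ) 0 (fun u ih => 2 * (ih + D.z u)) t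

def key (D : Dat) (i s : ℕ) : ℕ := 4 ^ i * (D.tot s + D.a s + D.b s) / 2 ^ s

def tm (D : Dat) (i s : ℕ) : ℕ :=
  Nat.rec (motive := fun _ => ℕ) 0
    (fun u ih => cond (decide (D.key i (u + 1) = D.key i u)) ih (u + 1)) s

def elig (D : Dat) (i t : ℕ) (y : Str) : Bool :=
  (decide (D.lev y = i) && D.ok y) && decide (D.mass [y] t * 4 ^ i ≤ 2 ^ t)

def fits (D : Dat) (i t : ℕ) (B : List Str) : Bool :=
  decide ((D.mass B t + D.b t) * 2 ^ (i + (D.e + 5)) + 2 ^ t ≤ D.a t * 2 ^ (i + (D.e + 5)))

def gr (D : Dat) (i t : ℕ) (B : List Str) (n : ℕ) : List Str :=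
  Nat.rec (motive := fun _ => List Str) B
    (fun u C => cond (D.elig i t (D.out u) && D.fits i t (D.out u :: C)) (D.out u :: C) C) n

def bs (D : Dat) (s d : ℕ) : List Str :=
  Nat.rec (motive := fun _ => List Str) []
    (fun j C => D.gr (D.i0 + j) (D.tm (D.i0 + j) s) C (D.tm (D.i0 + j) s)) d

def ap (D : Dat) (s0 : ℕ) (x : Str) (s : ℕ) : Bool :=
  Nat.casesOn (motive := fun _ => Bool) s false
    (fun u => decide (x ∈ D.bs (u + s0) (D.lev x + 1 - D.i0)))

end Dat

section helpers
variable {α : Type} [Primcodable α]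

theorem cadd {f g : α → ℕ} (hf : Computable f) (hg : Computable g) :
    Computable fun x => f x + g x := Primrec.nat_add.to_comp.comp hf hg

theorem csub {f g : α → ℕ} (hf : Computable f) (hg : Computable g) :
    Computable fun x => f x - g x := Primrec.nat_sub.to_comp.comp hf hg

theorem cmul {f g : α → ℕ} (hf : Computable f) (hg : Computable g) :
    Computable fun x => f x * g x := Primrec.nat_mul.to_comp.comp hf hg

theorem cdiv {f g : α → ℕ} (hf : Computable f) (hg : Computable g) :
    Computable fun x => f x / g x := Primrec.nat_div.to_comp.comp hf hg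

theorem cpow (c : ℕ) {g : α → ℕ} (hg : Computable g) :
    Computable fun x => c ^ g x :=
  (Primrec₂.unpaired'.1 Nat.Primrec.pow).to_comp.comp (Computable.const c) hg

theorem cpair {f g : α → ℕ} (hf : Computable f) (hg : Computable g) :
    Computable fun x => Nat.pair (f x) (g x) := Primrec₂.natPair.to_comp.comp hf hg

theorem cle {f g : α → ℕ} (hf : Computable f) (hg : Computable g) :
    Computable fun x => decide (f x ≤ g x) :=
  (Primrec.nat_le.decide).to_comp.comp hf hg

theorem ceq {f g : α → ℕ} (hf : Computable f) (hg : Computable g) :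
    Computable fun x => decide (f x = g x) :=
  ((Primrec.eq (α := ℕ)).decide).to_comp.comp hf hg

theorem cand {f g : α → Bool} (hf : Computable f) (hg : Computable g) :
    Computable fun x => (f x && g x) := Primrec.and.to_comp.comp hf hg

theorem pmem : PrimrecRel fun (L : List Str) (y : Str) => y ∈ L :=
  ((Primrec.eq (α := Str)).exists_mem_list).of_eq fun L y => by simp

theorem cmem {f : α → Str} {g : α → List Str} (hf : Computable f) (hg : Computable g) :
    Computable fun x => decide (f x ∈ g x) :=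
  (pmem.decide).to_comp.comp hg hf

theorem ccons {β : Type} [Primcodable β] {f : α → β} {g : α → List β} (hf : Computable f)
    (hg : Computable g) : Computable fun x => f x :: g x := Computable.list_cons.comp hf hg

end helpers

structure Dat.Cp (D : Dat) : Prop where
  out : Computable D.out
  z : Computable D.z
  lev : Computable D.lev
  ok : Computable D.ok
  a : Computable D.a
  b : Computable D.b

open Computable

variable {D : Dat}

theorem c_mass (h : D.Cp) : Computable₂ D.mass := by
  have h1 : Computable fun q : (List Str × ℕ) × ℕ × ℕ =>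
      2 * (q.2.2 + cond (decide (D.out q.2.1 ∈ q.1.1)) (D.z q.2.1) 0) :=
    cmul (const 2) (cadd (snd.comp snd)
      (Computable.cond (cmem (h.out.comp (fst.comp snd)) (fst.comp fst))
        (h.z.comp (fst.comp snd)) (const 0)))
  exact (nat_rec (snd (α := List Str) (β := ℕ)) (const 0) h1.to₂).of_eq fun _ => rfl

theorem c_tot (h : D.Cp) : Computable D.tot := by
  have h1 : Computable fun q : ℕ × ℕ × ℕ => 2 * (q.2.2 + D.z q.2.1) :=
    cmul (const 2) (cadd (snd.comp snd) (h.z.comp (fst.comp snd)))
  exact (nat_rec Computable.id (const 0) h1.to₂).of_eq fun _ => rfl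

theorem c_key (h : D.Cp) : Computable₂ D.key := by
  have h1 : Computable fun q : ℕ × ℕ =>
      4 ^ q.1 * (D.tot q.2 + D.a q.2 + D.b q.2) / 2 ^ q.2 :=
    cdiv (cmul (cpow 4 fst) (cadd (cadd ((c_tot h).comp snd) (h.a.comp snd)) (h.b.comp snd)))
      (cpow 2 snd)
  exact h1

theorem c_tm (h : D.Cp) : Computable₂ D.tm := by
  have h1 : Computable fun q : (ℕ × ℕ) × ℕ × ℕ =>
      cond (decide (D.key q.1.1 (q.2.1 + 1) = D.key q.1.1 q.2.1)) q.2.2 (q.2.1 + 1) :=
    Computable.cond
      (ceq ((c_key h).comp (fst.comp fst) (cadd (fst.comp snd) (const 1)))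
        ((c_key h).comp (fst.comp fst) (fst.comp snd)))
      (snd.comp snd) (cadd (fst.comp snd) (const 1))
  exact (nat_rec (snd (α := ℕ) (β := ℕ)) (const 0) h1.to₂).of_eq fun _ => rfl

theorem c_elig {α : Type} [Primcodable α] (h : D.Cp) {i t : α → ℕ} {y : α → Str}
    (hi : Computable i) (ht : Computable t) (hy : Computable y) :
    Computable fun x => D.elig (i x) (t x) (y x) :=
  cand (cand (ceq (h.lev.comp hy) hi) (h.ok.comp hy))
    (cle (cmul ((c_mass h).comp (ccons hy (const [])) ht) (cpow 4 hi)) (cpow 2 ht))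

theorem c_fits {α : Type} [Primcodable α] (h : D.Cp) {i t : α → ℕ} {B : α → List Str}
    (hi : Computable i) (ht : Computable t) (hB : Computable B) :
    Computable fun x => D.fits (i x) (t x) (B x) :=
  cle (cadd (cmul (cadd ((c_mass h).comp hB ht) (h.b.comp ht))
      (cpow 2 (cadd hi (const (D.e + 5))))) (cpow 2 ht))
    (cmul (h.a.comp ht) (cpow 2 (cadd hi (const (D.e + 5)))))

theorem c_gr {α : Type} [Primcodable α] (h : D.Cp) {i t : α → ℕ} {B : α → List Str}
    (hi : Computable i) (ht : Computable t) (hB : Computable B) :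
    Computable fun x => D.gr (i x) (t x) (B x) (t x) := by
  have ho : Computable fun q : α × ℕ × List Str => D.out q.2.1 := h.out.comp (fst.comp snd)
  have hc : Computable fun q : α × ℕ × List Str => D.out q.2.1 :: q.2.2 :=
    ccons ho (snd.comp snd)
  have h1 : Computable fun q : α × ℕ × List Str =>
      cond (D.elig (i q.1) (t q.1) (D.out q.2.1) && D.fits (i q.1) (t q.1) (D.out q.2.1 :: q.2.2))
        (D.out q.2.1 :: q.2.2) q.2.2 :=
    Computable.cond
      (cand (c_elig h (hi.comp fst) (ht.comp fst) ho) (c_fits h (hi.comp fst) (ht.comp fst) hc))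
      hc (snd.comp snd)
  exact (nat_rec ht hB h1.to₂).of_eq fun _ => rfl

theorem c_bs (h : D.Cp) : Computable₂ D.bs := by
  have hi : Computable fun q : (ℕ × ℕ) × ℕ × List Str => D.i0 + q.2.1 :=
    cadd (const D.i0) (fst.comp snd)
  have ht : Computable fun q : (ℕ × ℕ) × ℕ × List Str => D.tm (D.i0 + q.2.1) q.1.1 :=
    (c_tm h).comp hi (fst.comp fst)
  have h1 := c_gr h hi ht (snd.comp snd)
  exact (nat_rec (snd (α := ℕ) (β := ℕ)) (const []) h1.to₂).of_eq fun _ => rfl

theorem c_ap (h : D.Cp) (s0 : ℕ) : Computable₂ (D.ap s0) := by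
  have h1 : Computable fun q : (Str × ℕ) × ℕ =>
      decide (q.1.1 ∈ D.bs (q.2 + s0) (D.lev q.1.1 + 1 - D.i0)) :=
    cmem (fst.comp fst) ((c_bs h).comp (cadd snd (const s0))
      (csub (cadd (h.lev.comp (fst.comp fst)) (const 1)) (const D.i0)))
  exact (nat_casesOn (snd (α := Str) (β := ℕ)) (const false) h1.to₂).of_eq fun _ => rfl

end Pool.Agent.Lib.MP_f476d2_lc
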