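import Pool.Agent.Lib.MP_f476d2_lc.Keys

/-! The greedy step, the limit set and the number of changes. -/

namespace Pool.Agent.Lib.MP_f476d2_lc

open Filter Topology Finset
open scoped Classical

variable {D : Dat} {α β : ℝ}

noncomputable def Dat.df (D : Dat) (B : List Str) (t : ℕ) : ℝ :=
  (D.a t : ℝ) / 2 ^ t - (D.b t : ℝ) / 2 ^ t - D.mu {x | x ∈ B} t

theorem fits_iff (D : Dat) (i t : ℕ) (B : List Str) :
    D.fits i t B = true ↔ (1 / 2 : ℝ) ^ (i + (D.e + 5)) ≤ D.df B t := by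
  unfold Dat.fits Dat.df
  rw [decide_eq_true_iff, ← Nat.cast_le (α := ℝ)]
  push_cast
  rw [mass_eq]
  generalize i + (D.e + 5) = k
  have h2 : (0 : ℝ) < 2 ^ t := by positivity
  have h3 : (0 : ℝ) < 2 ^ k := by positivity
  have h4 : (D.a t : ℝ) / 2 ^ t - (D.b t : ℝ) / 2 ^ t - D.mu {x | x ∈ B} t - (1 / 2 : ℝ) ^ k =
      ((D.a t : ℝ) * 2 ^ k - ((2 ^ t * D.mu {x | x ∈ B} t + D.b t) * 2 ^ k + 2 ^ t)) /
        (2 ^ t * 2 ^ k) := by
    rw [one_div, inv_pow]; field_simp; ring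
  rw [← sub_nonneg (a := (D.a t : ℝ) / 2 ^ t - (D.b t : ℝ) / 2 ^ t - D.mu {x | x ∈ B} t), h4,
    le_div_iff₀ (mul_pos h2 h3), zero_mul, sub_nonneg]

theorem small_iff (D : Dat) (i t : ℕ) (y : Str) :
    D.mass [y] t * 4 ^ i ≤ 2 ^ t ↔ D.mu {y} t ≤ (1 / 4 : ℝ) ^ i := by
  rw [← Nat.cast_le (α := ℝ)]
  push_cast
  rw [mass_eq]
  have h0 : ({x | x ∈ [y]} : Set Str) = {y} := by ext x; simp
  rw [h0]
  have h2 : (0 : ℝ) < 2 ^ t := by positivity
  have h3 : (0 : ℝ) < 4 ^ i := by positivity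
  rw [one_div, inv_pow, mul_assoc, mul_le_iff_le_one_right h2, ← one_div, le_div_iff₀ h3]

theorem df_cons (D : Dat) (y : Str) (C : List Str) (t : ℕ) :
    D.df (y :: C) t ≤ D.df C t ∧ D.df C t ≤ D.df (y :: C) t + D.mu {y} t := by
  have h1 : D.mu {x | x ∈ C} t ≤ D.mu {x | x ∈ y :: C} t :=
    mu_mono D (fun x hx => List.mem_cons_of_mem _ hx) t
  have h2 : D.mu {x | x ∈ y :: C} t ≤ D.mu {x | x ∈ C} t + D.mu {y} t := by
    unfold Dat.mu
    rw [← sum_add_distrib]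
    refine sum_le_sum fun u _ => ?_
    have h3 := ind_nonneg D {x | x ∈ C} u
    have h4 := ind_nonneg D {y} u
    by_cases h5 : D.out u ∈ ({x | x ∈ y :: C} : Set Str)
    · have h6 : D.ind {x | x ∈ y :: C} u = D.wt u := if_pos h5
      rcases List.mem_cons.1 h5 with h7 | h7
      · have h8 : D.ind {y} u = D.wt u := if_pos h7
        linarith
      · have h8 : D.ind {x | x ∈ C} u = D.wt u := if_pos h7
        linarith
    · have h6 : D.ind {x | x ∈ y :: C} u = 0 := if_neg h5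
      linarith
  unfold Dat.df
  constructor <;> linarith

theorem gr_inv (D : Dat) (i t : ℕ) (B : List Str)
    (h0 : (1 / 2 : ℝ) ^ (i + (D.e + 5)) ≤ D.df B t) (n : ℕ) :
    (1 / 2 : ℝ) ^ (i + (D.e + 5)) ≤ D.df (D.gr i t B n) t ∧
      (D.df (D.gr i t B n) t < (1 / 2 : ℝ) ^ (i + (D.e + 5)) + (1 / 4) ^ i ∨
        ∀ u < n, D.elig i t (D.out u) = true → D.out u ∈ D.gr i t B n) := by
  induction n with
  | zero => exact ⟨h0, Or.inr fun u hu => absurd hu (Nat.not_lt_zero u)⟩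
  | succ n ih =>
    obtain ⟨i1, i2⟩ := ih
    have hd := df_cons D (D.out n) (D.gr i t B n) t
    rw [gr_succ]
    split_ifs with h
    · refine ⟨(fits_iff D i t _).1 h.2, ?_⟩
      rcases i2 with i2 | i2
      · exact Or.inl (by linarith [hd.1])
      · refine Or.inr fun u hu he => ?_
        rcases Nat.lt_succ_iff_lt_or_eq.1 hu with h1 | rfl
        · exact List.mem_cons_of_mem _ (i2 u h1 he)
        · exact List.mem_cons_self
    · refine ⟨i1, ?_⟩
      rcases i2 with i2 | i2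
      · exact Or.inl i2
      · by_cases he : D.elig i t (D.out n) = true
        · left
          have h1 : ¬ D.fits i t (D.out n :: D.gr i t B n) = true := fun h2 => h ⟨he, h2⟩
          rw [fits_iff, not_le] at h1
          have h2 := (small_iff D i t _).1 ((elig_iff D i t _).1 he).2.2
          linarith [hd.2]
        · refine Or.inr fun u hu he' => ?_
          rcases Nat.lt_succ_iff_lt_or_eq.1 hu with h1 | rfl
          · exact i2 u h1 he'
          · exact absurd he' he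

theorem df_close (g : D.Gd α β) {t : ℕ} {η : ℝ} (h : D.muI Set.univ + α + β - D.cc t ≤ η)
    (C : List Str) : |α - β - D.muI {x | x ∈ C} - D.df C t| ≤ η := by
  have h1 := g.am.ge_of_tendsto g.at' t
  have h2 := g.bm.ge_of_tendsto g.bt t
  have h3 := mu_le_muI g {x | x ∈ C} t
  have h4 := tail_le g {x | x ∈ C} t
  unfold Dat.cc at h
  unfold Dat.df
  rw [abs_le]
  constructor <;> linarith

theorem cap_small (g : D.Gd α β) {i : ℕ} (hi : 1 ≤ i) (P : Finset Str) (hP : P.card = 8 ^ i)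
    (hw : ∀ y ∈ P, (1 / 2 : ℝ) ^ (4 * i + 1 + D.e) ≤ D.muI {y}) :
    (1 / 2 : ℝ) ^ (i + D.e + 2) ≤
      D.muI ((P.filter fun y => D.muI {y} ≤ (1 / 4 : ℝ) ^ i : Finset Str) : Set Str) := by
  set Q := P.filter fun y => D.muI {y} ≤ (1 / 4 : ℝ) ^ i with hQ
  set R := P.filter fun y => ¬ D.muI {y} ≤ (1 / 4 : ℝ) ^ i with hR
  have h1 : Q.card + R.card = 8 ^ i := by
    rw [← hP, hQ, hR]; exact card_filter_add_card_filter_not _
  have h2 : (R.card : ℝ) * (1 / 4) ^ i ≤ 1 := by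
    have h3 := card_nsmul_le_sum R (fun y => D.muI {y}) ((1 / 4 : ℝ) ^ i)
      fun y hy => (not_le.1 (mem_filter.1 hy).2).le
    rw [← muI_finset g, nsmul_eq_mul] at h3
    exact h3.trans (muI_le_one g _)
  have h4 : (Q.card : ℝ) * (1 / 2) ^ (4 * i + 1 + D.e) ≤ D.muI (Q : Set Str) := by
    have h3 := card_nsmul_le_sum Q (fun y => D.muI {y}) ((1 / 2 : ℝ) ^ (4 * i + 1 + D.e))
      fun y hy => hw y (mem_filter.1 hy).1
    rwa [← muI_finset g, nsmul_eq_mul] at h3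
  have h5 : (R.card : ℝ) ≤ 4 ^ i := by
    have h6 : (0 : ℝ) < 4 ^ i := by positivity
    rw [one_div, inv_pow, ← div_eq_mul_inv, div_le_one h6] at h2
    exact h2
  have h6 : (Q.card : ℝ) + R.card = 8 ^ i := by exact_mod_cast h1
  have h7 : (2 : ℝ) * 4 ^ i ≤ 8 ^ i := by
    have h8 : (8 : ℝ) ^ i = 2 ^ i * 4 ^ i := by rw [← mul_pow]; norm_num
    have h9 : (2 : ℝ) ≤ 2 ^ i := by
      calc (2 : ℝ) = 2 ^ 1 := by norm_num
        _ ≤ 2 ^ i := pow_le_pow_right₀ (by norm_num) hi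
    rw [h8]; gcongr
  have h8 : (8 : ℝ) ^ i / 2 ≤ Q.card := by linarith
  have h9 : (1 / 2 : ℝ) ^ (i + D.e + 2) = 8 ^ i / 2 * (1 / 2) ^ (4 * i + 1 + D.e) := by
    have h10 : (8 : ℝ) ^ i * (1 / 2) ^ (3 * i) = 1 := by
      rw [pow_mul, ← mul_pow]; norm_num
    have h11 : 4 * i + 1 + D.e = 3 * i + (i + D.e + 1) := by ring
    rw [h11, pow_add (1 / 2 : ℝ) (3 * i), pow_succ (1 / 2 : ℝ) (i + D.e + 1)]
    linear_combination (-(1 / 2 : ℝ) ^ (i + D.e + 1) / 2) * h10
  rw [h9]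
  exact le_trans (by gcongr) h4

def Dat.Cap (D : Dat) : Prop :=
  ∀ i, ∃ P : Finset Str, P.card = 8 ^ i ∧ ∀ y ∈ P,
    D.lev y = i ∧ D.ok y = true ∧ (1 / 2 : ℝ) ^ (4 * i + 1 + D.e) ≤ D.muI {y}

def Dat.Iv (D : Dat) (r : ℝ) (i : ℕ) (B : List Str) : Prop :=
  3 / 4 * (1 / 2 : ℝ) ^ (i + D.e + 4) ≤ r - D.muI {x | x ∈ B} ∧
    r - D.muI {x | x ∈ B} ≤ 2 * (1 / 2 : ℝ) ^ (i + D.e + 4)

theorem step (g : D.Gd α β) (cap : D.Cap) {i t : ℕ} (hi : D.e + 7 ≤ i) {B : List Str}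
    (hB : ∀ x ∈ B, D.lev x ≠ i) (ht : D.muI Set.univ + α + β - D.cc t ≤ (1 / 4) ^ i)
    (hI : D.Iv (α - β) i B) : D.Iv (α - β) (i + 1) (D.gr i t B t) := by
  set m : ℝ := (1 / 2) ^ (i + D.e + 7) with hm
  have hm0 : 0 < m := by positivity
  have e1 : (1 / 2 : ℝ) ^ (i + D.e + 4) = 8 * m := by
    rw [hm, show i + D.e + 7 = i + D.e + 4 + 3 by ring, pow_add _ (i + D.e + 4) 3]; ring
  have e2 : (1 / 2 : ℝ) ^ (i + 1 + D.e + 4) = 4 * m := by
    rw [hm, show i + D.e + 7 = i + 1 + D.e + 4 + 2 by ring, pow_add _ (i + 1 + D.e + 4) 2]; ring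
  have e3 : (1 / 2 : ℝ) ^ (i + (D.e + 5)) = 4 * m := by
    rw [← e2]; congr 1; ring
  have e4 : (1 / 2 : ℝ) ^ (i + D.e + 2) = 32 * m := by
    rw [hm, show i + D.e + 7 = i + D.e + 2 + 5 by ring, pow_add _ (i + D.e + 2) 5]; ring
  have e5 : (1 / 4 : ℝ) ^ i ≤ m := by
    have : (1 / 4 : ℝ) ^ i = (1 / 2) ^ (2 * i) := by rw [pow_mul]; norm_num
    rw [this, hm]
    exact pow_le_pow_of_le_one (by norm_num) (by norm_num) (by omega)
  obtain ⟨I1, I2⟩ := hI
  rw [e1] at I1 I2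
  have c1 := abs_le.1 (df_close g ht B)
  have c2 := abs_le.1 (df_close g ht (D.gr i t B t))
  have h0 : (1 / 2 : ℝ) ^ (i + (D.e + 5)) ≤ D.df B t := by rw [e3]; linarith [c1.2]
  obtain ⟨j1, j2⟩ := gr_inv D i t B h0 t
  rw [e3] at j1 j2
  unfold Dat.Iv
  rw [e2]
  rcases j2 with j2 | j2
  · constructor <;> linarith [c2.1, c2.2]
  · exfalso
    obtain ⟨P, hP, hw⟩ := cap i
    have k1 := cap_small g (by omega) P hP fun y hy => (hw y hy).2.2
    set Q := P.filter fun y => D.muI {y} ≤ (1 / 4 : ℝ) ^ i with hQ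
    have k2 := tail_le g (Q : Set Str) t
    have k3 : D.mu {x | x ∈ B} t + D.mu (Q : Set Str) t ≤ D.mu {x | x ∈ D.gr i t B t} t := by
      unfold Dat.mu
      rw [← sum_add_distrib]
      refine sum_le_sum fun u hu => ?_
      by_cases q1 : D.out u ∈ (Q : Set Str)
      · have q2 := mem_filter.1 (mem_coe.1 q1)
        have q3 := hw _ q2.1
        have q4 : D.elig i t (D.out u) = true :=
          (elig_iff D i t _).2 ⟨q3.1, q3.2.1,
            (small_iff D i t _).2 ((mu_le_muI g _ t).trans q2.2)⟩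
        have q5 : D.ind {x | x ∈ D.gr i t B t} u = D.wt u := if_pos (j2 u (mem_range.1 hu) q4)
        have q6 : D.ind {x | x ∈ B} u = 0 := if_neg fun q7 => hB _ q7 q3.1
        have q7 := ind_le D (Q : Set Str) u
        linarith
      · have q2 : D.ind (Q : Set Str) u = 0 := if_neg q1
        have q3 := ind_mono D (Y := {x | x ∈ B}) (Z := {x | x ∈ D.gr i t B t})
          (fun x hx => sub_gr D i t B t hx) u
        linarith
    have h1 := g.am.ge_of_tendsto g.at' t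
    have h2 := g.bm.ge_of_tendsto g.bt t
    rw [e4] at k1
    have c3 := c1.1
    unfold Dat.df at j1 c3
    unfold Dat.cc at ht
    linarith

theorem iv_bs (g : D.Gd α β) (cap : D.Cap) (hi : D.e + 7 ≤ D.i0) (h0 : D.Iv (α - β) D.i0 [])
    (d : ℕ) {s : ℕ} (hs : D.St (D.i0 + d) s) : D.Iv (α - β) (D.i0 + d) (D.bs s d) := by
  induction d with
  | zero => exact h0
  | succ d ih =>
    have h1 : D.St (D.i0 + d) s := St_down hs
    rw [bs_succ]
    exact step g cap (i := D.i0 + d) (by omega) (fun x hx => (mem_bs D s d hx).2.1.ne)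
      (close g h1) (ih h1)

theorem ap_succ (D : Dat) (s0 : ℕ) (x : Str) (u : ℕ) :
    D.ap s0 x (u + 1) = decide (x ∈ D.bs (u + s0) (D.lev x + 1 - D.i0)) := by
  unfold Dat.ap; simp

theorem ap_ev (g : D.Gd α β) (s0 : ℕ) {d s : ℕ} (hs : D.St (D.i0 + d) s) {x : Str}
    (hx : D.lev x < D.i0 + d) : ∀ᶠ u in atTop, (D.ap s0 x u = true ↔ x ∈ D.bs s d) := by
  refine eventually_atTop.2 ⟨s + 1, fun u hu => ?_⟩
  obtain ⟨v, rfl⟩ : ∃ v, u = v + 1 := ⟨u - 1, by omega⟩
  rw [ap_succ, decide_eq_true_iff, ← bs_eq g d (hs (v + s0) (by omega))]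
  exact (mem_bs_iff D _ (by omega) (by omega)).symm

theorem count (g : D.Gd α β) (s0 : ℕ) (x : Str) (n : ℕ) :
    ((range (n + 1)).filter fun s => D.ap s0 x s ≠ D.ap s0 x (s + 1)).card +
      D.key (D.i0 + (D.lev x + 1 - D.i0)) s0 ≤
        1 + D.key (D.i0 + (D.lev x + 1 - D.i0)) (n + s0) := by
  induction n with
  | zero =>
    have := card_filter_le (range (0 + 1)) fun s => D.ap s0 x s ≠ D.ap s0 x (s + 1)
    rw [card_range] at this
    rw [zero_add s0]; omega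
  | succ n ih =>
    have hm := key_mono g (D.i0 + (D.lev x + 1 - D.i0)) (show n + s0 ≤ n + 1 + s0 by omega)
    rw [range_add_one, filter_insert]
    split_ifs with h
    · have h1 : D.key (D.i0 + (D.lev x + 1 - D.i0)) (n + s0) ≠
          D.key (D.i0 + (D.lev x + 1 - D.i0)) (n + 1 + s0) := fun h2 => h (by
        rw [ap_succ, ap_succ, bs_eq g _ h2])
      have h3 := card_insert_le (n + 1)
        ((range (n + 1)).filter fun s => D.ap s0 x s ≠ D.ap s0 x (s + 1))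
      omega
    · omega

theorem core (D : Dat) (α β : ℝ) (hc : D.Cp) (g : D.Gd α β) (cap : D.Cap)
    (hi : D.e + 7 ≤ D.i0) (h1 : (1 / 2 : ℝ) ^ (D.i0 + D.e + 4) ≤ α - β)
    (h2 : α - β ≤ 2 * (1 / 2 : ℝ) ^ (D.i0 + D.e + 4)) :
    ∃ (X : Set Str) (ap : Str → ℕ → Bool), Computable₂ ap ∧ (∀ x, ap x 0 = false) ∧
      (∀ x, ∀ᶠ s in atTop, (ap x s = true ↔ x ∈ X)) ∧
      (∀ x n, ((range n).filter fun s => ap x s ≠ ap x (s + 1)).card ≤
        if D.ok x = true then 4 ^ (D.lev x + 1) + 1 else 0) ∧ D.muI X = α - β := by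
  obtain ⟨s0, hs0⟩ : ∃ s0, D.muI Set.univ + α + β - 1 < D.cc s0 :=
    ((cc_tendsto g).eventually (lt_mem_nhds (by linarith))).exists
  have hkey : ∀ i s, D.key i s ≤ D.key i s0 + 4 ^ i := fun i s => by
    have k1 := key_le D i s
    have k2 := lt_key D i s0
    have k3 := cc_le g s
    have k4 : (4 : ℝ) ^ i * D.cc s ≤ 4 ^ i * (D.cc s0 + 1) :=
      mul_le_mul_of_nonneg_left (by linarith) (by positivity)
    have k5 : (D.key i s : ℝ) < ((D.key i s0 + 4 ^ i + 1 : ℕ) : ℝ) := by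
      push_cast; linarith
    have k6 := Nat.cast_lt.1 k5
    omega
  set X : Set Str := {x | ∀ᶠ u in atTop, D.ap s0 x u = true} with hX
  have hmem : ∀ {d s : ℕ}, D.St (D.i0 + d) s → ∀ {x : Str}, D.lev x < D.i0 + d →
      (x ∈ X ↔ x ∈ D.bs s d) := fun {d s} hs {x} hx => by
    have k1 := ap_ev g s0 hs hx
    constructor
    · intro k2
      obtain ⟨u, k3, k4⟩ := (k1.and k2).exists
      exact k3.1 k4
    · intro k2
      exact k1.mono fun u hu => hu.2 k2
  refine ⟨X, D.ap s0, c_ap hc s0, fun _ => rfl, fun x => ?_, fun x n => ?_, ?_⟩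
  · obtain ⟨s, hs⟩ := exists_St g (D.i0 + (D.lev x + 1))
    rw [hmem hs (by omega)]
    exact ap_ev g s0 hs (by omega)
  · by_cases hx : D.ok x = true ∧ D.i0 ≤ D.lev x
    · rw [if_pos hx.1]
      cases n with
      | zero => simp
      | succ n =>
        have k1 := count g s0 x n
        have k2 : D.i0 + (D.lev x + 1 - D.i0) = D.lev x + 1 := by omega
        rw [k2] at k1
        have k3 := hkey (D.lev x + 1) (n + s0)
        omega
    · have k1 : ∀ s, D.ap s0 x s = false := fun s => by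
        cases s with
        | zero => rfl
        | succ s =>
          rw [ap_succ, decide_eq_false_iff_not]
          exact fun k2 => hx ⟨(mem_bs D _ _ k2).2.2, (mem_bs D _ _ k2).1⟩
      simp [k1]
  · have h0 : D.Iv (α - β) D.i0 [] := by
      have k1 : D.muI {x | x ∈ ([] : List Str)} = 0 := by simp [Dat.muI, Dat.ind]
      have k2 : (0 : ℝ) < (1 / 2) ^ (D.i0 + D.e + 4) := by positivity
      unfold Dat.Iv
      rw [k1]
      constructor <;> linarith
    have t1 : Tendsto (fun d => D.muI {x | x ∈ X ∧ D.lev x < D.i0 + d}) atTop (𝓝 (D.muI X)) := by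
      refine tendsto_tsum_of_dominated_convergence g.sm (fun u => ?_)
        (Eventually.of_forall fun d u => ?_)
      · refine tendsto_const_nhds.congr' (eventually_atTop.2 ⟨D.lev (D.out u) + 1, fun d hd => ?_⟩)
        unfold Dat.ind
        have k1 : D.lev (D.out u) < D.i0 + d := by omega
        simp only [Set.mem_ofPred_eq, k1, and_true]
      · rw [Real.norm_of_nonneg (ind_nonneg D _ u)]
        exact ind_le D _ u
    have t2 : ∀ d, 0 ≤ α - β - D.muI {x | x ∈ X ∧ D.lev x < D.i0 + d} ∧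
        α - β - D.muI {x | x ∈ X ∧ D.lev x < D.i0 + d} ≤ 2 * (1 / 2 : ℝ) ^ d := fun d => by
      obtain ⟨s, hs⟩ := exists_St g (D.i0 + d)
      have k1 : {x | x ∈ X ∧ D.lev x < D.i0 + d} = {x | x ∈ D.bs s d} := by
        ext x
        exact ⟨fun k => (hmem hs k.2).1 k.1, fun k =>
          ⟨(hmem hs (mem_bs D s d k).2.1).2 k, (mem_bs D s d k).2.1⟩⟩
      obtain ⟨k2, k3⟩ := iv_bs g cap hi h0 d hs
      have k4 : (0 : ℝ) < (1 / 2) ^ (D.i0 + d + D.e + 4) := by positivity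
      have k5 : (1 / 2 : ℝ) ^ (D.i0 + d + D.e + 4) ≤ (1 / 2) ^ d :=
        pow_le_pow_of_le_one (by norm_num) (by norm_num) (by omega)
      rw [k1]
      constructor <;> linarith
    have t3 : Tendsto (fun d : ℕ => 2 * (1 / 2 : ℝ) ^ d) atTop (𝓝 0) := by
      simpa using (tendsto_pow_atTop_nhds_zero_of_lt_one (r := (1 / 2 : ℝ)) (by norm_num)
        (by norm_num)).const_mul 2
    have t4 := squeeze_zero (fun d => (t2 d).1) (fun d => (t2 d).2) t3
    have t5 := tendsto_nhds_unique (t1.const_sub (α - β)) t4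
    linarith

end Pool.Agent.Lib.MP_f476d2_lc
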