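import Pool.Agent.Lib.MP_f476d2_lc.Comp

/-! Masses, the counters `key` and the stages `tm`. -/

namespace Pool.Agent.Lib.MP_f476d2_lc

open Filter Topology Finset
open scoped Classical

namespace Dat

noncomputable def wt (D : Dat) (u : ℕ) : ℝ := (D.z u : ℝ) / 2 ^ u

noncomputable def ind (D : Dat) (Y : Set Str) (u : ℕ) : ℝ := if D.out u ∈ Y then D.wt u else 0

noncomputable def mu (D : Dat) (Y : Set Str) (t : ℕ) : ℝ := ∑ u ∈ range t, D.ind Y u

noncomputable def muI (D : Dat) (Y : Set Str) : ℝ := ∑' u, D.ind Y u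

noncomputable def cc (D : Dat) (s : ℕ) : ℝ :=
  D.mu Set.univ s + (D.a s : ℝ) / 2 ^ s + (D.b s : ℝ) / 2 ^ s

structure Gd (D : Dat) (α β : ℝ) : Prop where
  sm : Summable D.wt
  one : ∑' u, D.wt u ≤ 1
  am : Monotone fun s => (D.a s : ℝ) / 2 ^ s
  at' : Tendsto (fun s => (D.a s : ℝ) / 2 ^ s) atTop (𝓝 α)
  bm : Monotone fun s => (D.b s : ℝ) / 2 ^ s
  bt : Tendsto (fun s => (D.b s : ℝ) / 2 ^ s) atTop (𝓝 β)

def St (D : Dat) (i s : ℕ) : Prop := ∀ s', s ≤ s' → D.key i s' = D.key i s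

end Dat

variable {D : Dat} {α β : ℝ}

theorem wt_nonneg (D : Dat) (u : ℕ) : 0 ≤ D.wt u := by unfold Dat.wt; positivity

theorem ind_nonneg (D : Dat) (Y : Set Str) (u : ℕ) : 0 ≤ D.ind Y u := by
  unfold Dat.ind; split_ifs
  · exact wt_nonneg D u
  · exact le_rfl

theorem ind_le (D : Dat) (Y : Set Str) (u : ℕ) : D.ind Y u ≤ D.wt u := by
  unfold Dat.ind; split_ifs
  · exact le_rfl
  · exact wt_nonneg D u

theorem ind_univ (D : Dat) (u : ℕ) : D.ind Set.univ u = D.wt u := by simp [Dat.ind]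

theorem ind_mono (D : Dat) {Y Z : Set Str} (h : Y ⊆ Z) (u : ℕ) : D.ind Y u ≤ D.ind Z u := by
  unfold Dat.ind
  by_cases h1 : D.out u ∈ Y
  · rw [if_pos h1, if_pos (h h1)]
  · rw [if_neg h1]; exact ind_nonneg D Z u

theorem sm_ind (g : D.Gd α β) (Y : Set Str) : Summable (D.ind Y) :=
  Summable.of_nonneg_of_le (ind_nonneg D Y) (ind_le D Y) g.sm

theorem mu_le_muI (g : D.Gd α β) (Y : Set Str) (t : ℕ) : D.mu Y t ≤ D.muI Y :=
  (sm_ind g Y).sum_le_tsum _ fun u _ => ind_nonneg D Y u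

theorem mu_tendsto (g : D.Gd α β) (Y : Set Str) : Tendsto (D.mu Y) atTop (𝓝 (D.muI Y)) :=
  (sm_ind g Y).hasSum.tendsto_sum_nat

theorem mu_mono (D : Dat) {Y Z : Set Str} (h : Y ⊆ Z) (t : ℕ) : D.mu Y t ≤ D.mu Z t :=
  sum_le_sum fun u _ => ind_mono D h u

theorem muI_mono (g : D.Gd α β) {Y Z : Set Str} (h : Y ⊆ Z) : D.muI Y ≤ D.muI Z :=
  (sm_ind g Y).tsum_le_tsum (ind_mono D h) (sm_ind g Z)

theorem muI_le_one (g : D.Gd α β) (Y : Set Str) : D.muI Y ≤ 1 :=
  ((sm_ind g Y).tsum_le_tsum (ind_le D Y) g.sm).trans g.one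

theorem tail_le (g : D.Gd α β) (Y : Set Str) (t : ℕ) :
    D.muI Y - D.mu Y t ≤ D.muI Set.univ - D.mu Set.univ t := by
  have h1 := (sm_ind g Y).sum_add_tsum_nat_add t
  have h2 := (sm_ind g Set.univ).sum_add_tsum_nat_add t
  have h3 : ∑' i, D.ind Y (i + t) ≤ ∑' i, D.ind Set.univ (i + t) :=
    ((summable_nat_add_iff t).2 (sm_ind g Y)).tsum_le_tsum
      (fun i => ind_mono D (Set.subset_univ _) _) ((summable_nat_add_iff t).2 (sm_ind g _))
  unfold Dat.muI Dat.mu
  linarith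

theorem muI_finset (g : D.Gd α β) (F : Finset Str) :
    D.muI (F : Set Str) = ∑ y ∈ F, D.muI {y} := by
  unfold Dat.muI
  rw [← Summable.tsum_finsetSum (fun y _ => sm_ind g {y})]
  refine tsum_congr fun u => ?_
  unfold Dat.ind
  simp only [Set.mem_singleton_iff, Finset.mem_coe]
  rw [Finset.sum_ite_eq]

theorem mass_eq (D : Dat) (B : List Str) (t : ℕ) :
    (D.mass B t : ℝ) = 2 ^ t * D.mu {x | x ∈ B} t := by
  induction t with
  | zero => simp [Dat.mass, Dat.mu]
  | succ t ih =>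
    have h1 : D.mass B (t + 1) = 2 * (D.mass B t + cond (decide (D.out t ∈ B)) (D.z t) 0) := rfl
    have h2 : D.mu {x | x ∈ B} (t + 1) = D.mu {x | x ∈ B} t + D.ind {x | x ∈ B} t := by
      unfold Dat.mu; rw [sum_range_succ]
    rw [h1, h2]
    push_cast
    rw [ih]
    by_cases h : D.out t ∈ B
    · have h3 : D.ind {x | x ∈ B} t = (D.z t : ℝ) / 2 ^ t := by
        unfold Dat.ind Dat.wt; rw [if_pos (by simpa using h)]
      rw [h3]; simp only [h, decide_true, cond_true]; field_simp; ring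
    · have h3 : D.ind {x | x ∈ B} t = 0 := by
        unfold Dat.ind; rw [if_neg (by simpa using h)]
      rw [h3]; simp only [h, decide_false, cond_false]; push_cast; ring

theorem tot_eq (D : Dat) (t : ℕ) : (D.tot t : ℝ) = 2 ^ t * D.mu Set.univ t := by
  induction t with
  | zero => simp [Dat.tot, Dat.mu]
  | succ t ih =>
    have h1 : D.tot (t + 1) = 2 * (D.tot t + D.z t) := rfl
    have h2 : D.mu Set.univ (t + 1) = D.mu Set.univ t + (D.z t : ℝ) / 2 ^ t := by
      unfold Dat.mu; rw [sum_range_succ, ind_univ]; rfl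
    rw [h1, h2]
    push_cast
    rw [ih]; field_simp; ring

theorem key_eq (D : Dat) (i s : ℕ) : D.key i s = ⌊(4 : ℝ) ^ i * D.cc s⌋₊ := by
  unfold Dat.key
  rw [← Nat.floor_div_eq_div (K := ℝ)]
  congr 1
  push_cast
  rw [tot_eq]
  unfold Dat.cc
  field_simp

theorem cc_nonneg (D : Dat) (s : ℕ) : 0 ≤ D.cc s := by
  have : 0 ≤ D.mu Set.univ s := sum_nonneg fun u _ => ind_nonneg D _ u
  unfold Dat.cc; positivity

theorem cc_mono (g : D.Gd α β) : Monotone D.cc := by
  intro s t h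
  have h1 : D.mu Set.univ s ≤ D.mu Set.univ t :=
    sum_le_sum_of_subset_of_nonneg (range_mono h) fun u _ _ => ind_nonneg D _ u
  have h2 := g.am h
  have h3 := g.bm h
  unfold Dat.cc
  simp only at h2 h3
  linarith

theorem cc_tendsto (g : D.Gd α β) : Tendsto D.cc atTop (𝓝 (D.muI Set.univ + α + β)) :=
  ((mu_tendsto g _).add g.at').add g.bt

theorem cc_le (g : D.Gd α β) (s : ℕ) : D.cc s ≤ D.muI Set.univ + α + β :=
  (cc_mono g).ge_of_tendsto (cc_tendsto g) s

theorem key_mono (g : D.Gd α β) (i : ℕ) : Monotone (D.key i) := by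
  intro s t h
  rw [key_eq, key_eq]
  exact Nat.floor_mono (mul_le_mul_of_nonneg_left (cc_mono g h) (by positivity))

theorem key_le (D : Dat) (i s : ℕ) : (D.key i s : ℝ) ≤ 4 ^ i * D.cc s := by
  rw [key_eq]; exact Nat.floor_le (mul_nonneg (by positivity) (cc_nonneg D s))

theorem lt_key (D : Dat) (i s : ℕ) : 4 ^ i * D.cc s < (D.key i s : ℝ) + 1 := by
  rw [key_eq]; exact Nat.lt_floor_add_one _

theorem key_succ (D : Dat) (i s : ℕ) : D.key (i + 1) s / 4 = D.key i s := by
  unfold Dat.key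
  rw [Nat.div_div_eq_div_mul, pow_succ, mul_right_comm, Nat.mul_div_mul_right _ _ (by norm_num)]

theorem key_down {i s s' : ℕ} (h : D.key (i + 1) s = D.key (i + 1) s') :
    D.key i s = D.key i s' := by
  rw [← key_succ, ← key_succ D i s', h]

theorem St_down {i s : ℕ} (h : D.St (i + 1) s) : D.St i s := fun s' hs => key_down (h s' hs)

theorem exists_St (g : D.Gd α β) (i : ℕ) : ∃ s, D.St i s := by
  have hb : BddAbove (Set.range (D.key i)) := by
    refine ⟨⌊(4 : ℝ) ^ i * (D.muI Set.univ + α + β)⌋₊, ?_⟩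
    rintro _ ⟨s, rfl⟩
    rw [key_eq]
    exact Nat.floor_mono (mul_le_mul_of_nonneg_left (cc_le g s) (by positivity))
  obtain ⟨s, hs⟩ := Nat.sSup_mem (Set.range_nonempty (D.key i)) hb
  refine ⟨s, fun s' h => le_antisymm ?_ (key_mono g i h)⟩
  rw [hs]; exact le_csSup hb ⟨s', rfl⟩

theorem tm_succ (D : Dat) (i s : ℕ) :
    D.tm i (s + 1) = if D.key i (s + 1) = D.key i s then D.tm i s else s + 1 := by
  have h : D.tm i (s + 1) = cond (decide (D.key i (s + 1) = D.key i s)) (D.tm i s) (s + 1) := rfl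
  rw [h]
  by_cases h1 : D.key i (s + 1) = D.key i s <;> simp [h1]

theorem key_tm (D : Dat) (i s : ℕ) : D.key i (D.tm i s) = D.key i s := by
  induction s with
  | zero => rfl
  | succ s ih =>
    rw [tm_succ]
    split_ifs with h
    · rw [ih, h]
    · rfl

theorem tm_eq_le (g : D.Gd α β) {i s s' : ℕ} (hs : s ≤ s') (h : D.key i s = D.key i s') :
    D.tm i s = D.tm i s' := by
  induction s', hs using Nat.le_induction with
  | base => rfl
  | succ n hn ih =>
    have h1 := key_mono g i hn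
    have h2 := key_mono g i (Nat.le_succ n)
    simp only [Nat.succ_eq_add_one] at h2
    rw [tm_succ, if_pos (by omega)]
    exact ih (by omega)

theorem tm_eq (g : D.Gd α β) {i s s' : ℕ} (h : D.key i s = D.key i s') :
    D.tm i s = D.tm i s' := by
  rcases le_total s s' with hs | hs
  · exact tm_eq_le g hs h
  · exact (tm_eq_le g hs h.symm).symm

theorem close (g : D.Gd α β) {i s : ℕ} (h : D.St i s) :
    D.muI Set.univ + α + β - D.cc (D.tm i s) ≤ (1 / 4) ^ i := by
  have hp : (0 : ℝ) < 4 ^ i := by positivity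
  have h1 : D.muI Set.univ + α + β ≤ D.cc (D.tm i s) + (1 / 4) ^ i := by
    refine le_of_tendsto (cc_tendsto g) (eventually_atTop.2 ⟨s, fun s' hs => ?_⟩)
    have h2 := lt_key D i s'
    have h3 := key_le D i (D.tm i s)
    rw [h s' hs] at h2
    rw [key_tm] at h3
    have h4 : (4 : ℝ) ^ i * (1 / 4) ^ i = 1 := by rw [← mul_pow]; norm_num
    have h5 : (4 : ℝ) ^ i * D.cc s' ≤ 4 ^ i * (D.cc (D.tm i s) + (1 / 4) ^ i) := by
      rw [mul_add, h4]; linarith
    exact le_of_mul_le_mul_left h5 hp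
  linarith

theorem bs_succ (D : Dat) (s d : ℕ) :
    D.bs s (d + 1) = D.gr (D.i0 + d) (D.tm (D.i0 + d) s) (D.bs s d) (D.tm (D.i0 + d) s) := rfl

theorem bs_eq (g : D.Gd α β) {s s' : ℕ} (d : ℕ) (h : D.key (D.i0 + d) s = D.key (D.i0 + d) s') :
    D.bs s d = D.bs s' d := by
  induction d with
  | zero => rfl
  | succ d ih =>
    have h1 : D.key (D.i0 + d) s = D.key (D.i0 + d) s' := key_down h
    rw [bs_succ, bs_succ, ih h1, tm_eq g h1]

theorem gr_succ (D : Dat) (i t : ℕ) (B : List Str) (n : ℕ) :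
    D.gr i t B (n + 1) =
      if D.elig i t (D.out n) = true ∧ D.fits i t (D.out n :: D.gr i t B n) = true
      then D.out n :: D.gr i t B n else D.gr i t B n := by
  have h : D.gr i t B (n + 1) =
      cond (D.elig i t (D.out n) && D.fits i t (D.out n :: D.gr i t B n))
        (D.out n :: D.gr i t B n) (D.gr i t B n) := rfl
  rw [h]
  cases D.elig i t (D.out n) <;> cases D.fits i t (D.out n :: D.gr i t B n) <;> simp

theorem sub_gr (D : Dat) (i t : ℕ) (B : List Str) (n : ℕ) {x : Str} (h : x ∈ B) :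
    x ∈ D.gr i t B n := by
  induction n with
  | zero => exact h
  | succ n ih =>
    rw [gr_succ]; split_ifs
    · exact List.mem_cons_of_mem _ ih
    · exact ih

theorem elig_iff (D : Dat) (i t : ℕ) (y : Str) :
    D.elig i t y = true ↔ D.lev y = i ∧ D.ok y = true ∧ D.mass [y] t * 4 ^ i ≤ 2 ^ t := by
  simp [Dat.elig, and_assoc]

theorem mem_gr (D : Dat) (i t : ℕ) (B : List Str) (n : ℕ) {x : Str} (h : x ∈ D.gr i t B n) :
    x ∈ B ∨ (D.lev x = i ∧ D.ok x = true) := by
  induction n with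
  | zero => exact Or.inl h
  | succ n ih =>
    rw [gr_succ] at h
    split_ifs at h with h1
    · rcases List.mem_cons.1 h with rfl | h2
      · have := (elig_iff D i t _).1 h1.1
        exact Or.inr ⟨this.1, this.2.1⟩
      · exact ih h2
    · exact ih h

theorem mem_bs (D : Dat) (s d : ℕ) {x : Str} (h : x ∈ D.bs s d) :
    D.i0 ≤ D.lev x ∧ D.lev x < D.i0 + d ∧ D.ok x = true := by
  induction d with
  | zero => exact absurd h List.not_mem_nil
  | succ d ih =>
    rw [bs_succ] at h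
    rcases mem_gr D _ _ _ _ h with h1 | h1
    · have := ih h1
      exact ⟨this.1, by omega, this.2.2⟩
    · exact ⟨by omega, by omega, h1.2⟩

theorem mem_bs_iff (D : Dat) (s : ℕ) {d d' : ℕ} (hd : d ≤ d') {x : Str}
    (hx : D.lev x < D.i0 + d) : x ∈ D.bs s d' ↔ x ∈ D.bs s d := by
  induction d', hd using Nat.le_induction with
  | base => rfl
  | succ n hn ih =>
    rw [← ih, bs_succ]
    refine ⟨fun h => ?_, fun h => sub_gr D _ _ _ _ h⟩
    rcases mem_gr D _ _ _ _ h with h1 | h1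
    · exact h1
    · omega

end Pool.Agent.Lib.MP_f476d2_lc
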